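import Pool.Agent.Helper46.KSZ.St

/-! KSZ-E3: the local logarithmic derivative of zeta. -/

set_option autoImplicit false
open Filter Topology Complex Metric
open scoped Classical

namespace Pool.Agent.Helper55.KSZ

open Pool.Agent.Helper10.QRH Pool.Agent.Helper69.QRH Pool.Agent.Helper46.KSZ

lemma Qp_lower_pow (M : Multiset ℂ) (z : ℂ) (c : ℝ) (hc : 0 ≤ c) (h : ∀ ρ ∈ M, c ≤ ‖z - ρ‖) :
    c ^ Multiset.card M ≤ ‖Qp M z‖ := by
  induction M using Multiset.induction_on with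
  | empty => simp [Qp]
  | cons a M ih =>
    rw [Qp_cons, norm_mul, Multiset.card_cons, pow_succ, mul_comm]
    have h1 := h a (Multiset.mem_cons_self a M)
    have h2 := ih fun ρ hρ => h ρ (Multiset.mem_cons_of_mem hρ)
    exact mul_le_mul h1 h2 (pow_nonneg hc _) (norm_nonneg _)

lemma Qp_add (M N : Multiset ℂ) (z : ℂ) : Qp (M + N) z = Qp M z * Qp N z := by
  simp [Qp]

lemma Qp_near_far (M : Multiset ℂ) (t : ℝ) (z : ℂ) :
    Qp M z = Qp (near M t) z * Qp (far M t) z := by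
  rw [← Qp_add, near, far, Multiset.filter_add_not]

lemma EZ_lower_two (t : ℝ) : 1 / 3 ≤ ‖EZ (2 + t * I)‖ := by
  have hs0re : (2 + t * I : ℂ).re = 2 := by simp
  have hs01 : (2 + t * I : ℂ) ≠ 1 := by
    intro h
    have := congrArg Complex.re h
    rw [hs0re] at this
    norm_num at this
  rw [EZ_eq hs01, norm_mul]
  have h1 := zeta_two_line hs0re
  have h2 : 1 ≤ ‖(2 + t * I : ℂ) - 1‖ := by
    have := Complex.re_le_norm ((2 + t * I : ℂ) - 1)
    rw [Complex.sub_re, hs0re, Complex.one_re] at this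
    linarith
  nlinarith [norm_nonneg (riemannZeta (2 + t * I : ℂ))]

lemma norm_s0_le (t : ℝ) : ‖(2 + t * I : ℂ)‖ ≤ 2 + |t| := by
  refine (norm_add_le _ _).trans ?_
  rw [norm_mul, Complex.norm_I, mul_one, Complex.norm_real, Real.norm_eq_abs, Complex.norm_ofNat]

/-- log (5 + |t|) ≤ 3 log (|t| + 2) -/
lemma log_five_le (t : ℝ) : Real.log (5 + |t|) ≤ 3 * Real.log (|t| + 2) := by
  have ht := abs_nonneg t
  have h1 : 5 + |t| ≤ (|t| + 2) ^ 3 := by nlinarith [mul_nonneg ht ht, mul_nonneg (mul_nonneg ht ht) ht]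
  calc Real.log (5 + |t|) ≤ Real.log ((|t| + 2) ^ 3) := Real.log_le_log (by linarith) h1
    _ = 3 * Real.log (|t| + 2) := by rw [Real.log_pow]; norm_num

theorem localLog (h : JensenEZ) : LocalLog := by
  obtain ⟨C₁, hC₁, hJ⟩ := h
  obtain ⟨C₀, hC₀, hE⟩ := EZ_bound
  have hlog2 : 0 < Real.log 2 := Real.log_pos (by norm_num)
  have hlog14 : 0 < Real.log 14 := Real.log_pos (by norm_num)
  set A : ℝ := |Real.log (3 * C₀)| / Real.log 2 + 6 + C₁ * Real.log 14 with hA
  have hApos : 0 < A := by positivity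
  refine ⟨2 * A * 1.3975 / (1.4 - 1.3975) / (1.3975 - 1.395), by
    have : (0:ℝ) < 1.4 - 1.3975 := by norm_num
    have : (0:ℝ) < 1.3975 - 1.395 := by norm_num
    positivity, ?_⟩
  intro T M Z hT hB s hs1 hs2 hst
  obtain ⟨t, ht⟩ : ∃ t : ℝ, t = s.im := ⟨_, rfl⟩
  rw [← ht] at hst ⊢
  obtain ⟨s0, hs0⟩ : ∃ s0 : ℂ, s0 = 2 + t * I := ⟨_, rfl⟩
  obtain ⟨F, hF⟩ : ∃ F : ℂ → ℂ, F = fun z => Qp (far M t) z * Z z := ⟨_, rfl⟩
  have hFd : Differentiable ℂ F := by
    rw [hF]
    exact (Qp_differentiable _).mul hB.diff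
  have hEF : ∀ z, EZ z = Qp (near M t) z * F z := by
    intro z
    rw [hB.eq z, Qp_near_far M t z, hF]
    ring
  set n := Multiset.card (near M t) with hn
  have hnear : ∀ ρ ∈ near M t, ‖ρ - s0‖ < 1.4 := by
    intro ρ hρ
    have := (Multiset.mem_filter.1 hρ).2
    rwa [hs0]
  have hfar : ∀ ρ ∈ far M t, 1.4 ≤ ‖ρ - s0‖ := by
    intro ρ hρ
    have := (Multiset.mem_filter.1 hρ).2
    rw [hs0]
    exact not_lt.1 this
  have hL : Real.log 2 ≤ Real.log (|t| + 2) :=
    Real.log_le_log (by norm_num) (by linarith [abs_nonneg t])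
  set L := Real.log (|t| + 2) with hLdef
  have hL0 : 0 < L := hlog2.trans_le hL
  have hcard : (n : ℝ) ≤ C₁ * L := by
    refine hJ (near M t) F hFd hEF t fun ρ hρ => ?_
    have := hnear ρ hρ
    rw [hs0] at this
    linarith
  have hs0re : s0.re = 2 := by simp [hs0]
  have hs0im : s0.im = t := by simp [hs0]
  -- nonvanishing
  have hne : ∀ w : ℂ, ‖w‖ < 1.4 → F (s0 + w) ≠ 0 := by
    intro w hw
    have hwre := (abs_le.1 (Complex.abs_re_le_norm w))
    have hwim := (Complex.abs_im_le_norm w)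
    rw [hF]
    refine mul_ne_zero (Qp_ne_zero _ _ fun ρ hρ hEq => ?_) (hB.ne _ ?_ ?_)
    · have h1 := hfar ρ hρ
      rw [← hEq, add_sub_cancel_left] at h1
      linarith
    · rw [Complex.add_re, hs0re]
      linarith [hwre.1]
    · rw [Complex.add_im, hs0im]
      have := abs_add_le t w.im
      linarith
  -- the boundary bound
  have hbd : ∀ w : ℂ, ‖w‖ ≤ 1.5 → ‖F (s0 + w)‖ ≤ C₀ * (5 + |t|) ^ 2 * 10 ^ n := by
    have hmax : ∀ w ∈ closure (ball (0 : ℂ) 1.5), ‖F (s0 + w)‖ ≤ C₀ * (5 + |t|) ^ 2 * 10 ^ n := by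
      intro w hw
      have hd : DiffContOnCl ℂ (fun w => F (s0 + w)) (ball (0 : ℂ) 1.5) :=
        (hFd.comp ((differentiable_const s0).add differentiable_id)).diffContOnCl
      refine Complex.norm_le_of_forall_mem_frontier_norm_le isBounded_ball hd ?_ hw
      intro v hv
      rw [frontier_ball (0 : ℂ) (by norm_num : (1.5 : ℝ) ≠ 0), mem_sphere_zero_iff_norm] at hv
      have h1 := hE (s0 + v) (by
        have := (abs_le.1 (Complex.abs_re_le_norm v))
        rw [Complex.add_re, hs0re]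
        linarith [this.1])
      rw [hEF, norm_mul] at h1
      have h2 : ‖s0 + v‖ ≤ 4 + |t| := by
        refine (norm_add_le _ _).trans ?_
        have := norm_s0_le t
        rw [← hs0] at this
        linarith
      have h3 : (0.1 : ℝ) ^ n ≤ ‖Qp (near M t) (s0 + v)‖ := by
        refine Qp_lower_pow _ _ _ (by norm_num) fun ρ hρ => ?_
        have h4 := hnear ρ hρ
        have h5 : ‖v‖ ≤ ‖s0 + v - ρ‖ + ‖ρ - s0‖ := by
          have := norm_add_le (s0 + v - ρ) (ρ - s0)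
          have e : s0 + v - ρ + (ρ - s0) = v := by ring
          rwa [e] at this
        linarith
      have h6 : (1 + ‖s0 + v‖) ^ 2 ≤ (5 + |t|) ^ 2 :=
        pow_le_pow_left₀ (by positivity) (by linarith) 2
      have h7 : (0.1 : ℝ) ^ n * ‖F (s0 + v)‖ ≤ C₀ * (5 + |t|) ^ 2 := by
        calc (0.1 : ℝ) ^ n * ‖F (s0 + v)‖ ≤ ‖Qp (near M t) (s0 + v)‖ * ‖F (s0 + v)‖ := by gcongr
          _ ≤ C₀ * (1 + ‖s0 + v‖) ^ 2 := h1
          _ ≤ C₀ * (5 + |t|) ^ 2 := by gcongr
      have h8 : (10 : ℝ) ^ n * (0.1 : ℝ) ^ n = 1 := by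
        rw [← mul_pow]; norm_num
      calc ‖F (s0 + v)‖ = (10 : ℝ) ^ n * ((0.1 : ℝ) ^ n * ‖F (s0 + v)‖) := by
            rw [← mul_assoc, h8, one_mul]
        _ ≤ (10 : ℝ) ^ n * (C₀ * (5 + |t|) ^ 2) := by gcongr
        _ = _ := by ring
    intro w hw
    refine hmax w ?_
    rw [closure_ball (0 : ℂ) (by norm_num : (1.5 : ℝ) ≠ 0), mem_closedBall_zero_iff]
    exact hw
  -- the lower bound at the centre
  have hF0 : F s0 ≠ 0 := by
    have := hne 0 (by norm_num)
    rwa [add_zero] at this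
  have hF0pos : 0 < ‖F s0‖ := norm_pos_iff.2 hF0
  have hlow : 1 / 3 ≤ 1.4 ^ n * ‖F s0‖ := by
    have h1 := EZ_lower_two t
    rw [← hs0, hEF, norm_mul] at h1
    refine h1.trans ?_
    refine mul_le_mul_of_nonneg_right (Qp_upper _ _ _ (by norm_num) fun ρ hρ => ?_) (norm_nonneg _)
    rw [norm_sub_rev]
    exact (hnear ρ hρ).le
  obtain ⟨H, hH⟩ : ∃ H : ℂ → ℂ, H = fun w => F (s0 + w) / F s0 := ⟨_, rfl⟩
  have hHb : ∀ w ∈ ball (0 : ℂ) 1.4, ‖H w‖ ≤ Real.exp (A * L) := by
    intro w hw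
    rw [mem_ball_zero_iff] at hw
    have h1 := hbd w (by linarith)
    have h2 : ‖H w‖ ≤ 3 * C₀ * (5 + |t|) ^ 2 * 14 ^ n := by
      rw [hH]
      simp only
      rw [norm_div, div_le_iff₀ hF0pos]
      calc ‖F (s0 + w)‖ ≤ C₀ * (5 + |t|) ^ 2 * 10 ^ n := h1
        _ = 3 * C₀ * (5 + |t|) ^ 2 * 10 ^ n * (1 / 3) := by ring
        _ ≤ 3 * C₀ * (5 + |t|) ^ 2 * 10 ^ n * (1.4 ^ n * ‖F s0‖) := by gcongr
        _ = 3 * C₀ * (5 + |t|) ^ 2 * (10 ^ n * 1.4 ^ n) * ‖F s0‖ := by ring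
        _ = 3 * C₀ * (5 + |t|) ^ 2 * 14 ^ n * ‖F s0‖ := by
          rw [← mul_pow]; norm_num
    refine h2.trans ?_
    have ht0 := abs_nonneg t
    rw [← Real.log_le_iff_le_exp (by positivity), Real.log_mul (by positivity) (by positivity),
      Real.log_mul (by positivity) (by positivity), Real.log_pow, Real.log_pow]
    push_cast
    have h3 : Real.log (3 * C₀) ≤ |Real.log (3 * C₀)| / Real.log 2 * L := by
      calc Real.log (3 * C₀) ≤ |Real.log (3 * C₀)| := le_abs_self _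
        _ = |Real.log (3 * C₀)| / Real.log 2 * Real.log 2 := by field_simp
        _ ≤ _ := by gcongr
    have h4 := log_five_le t
    have h5 : (n : ℝ) * Real.log 14 ≤ C₁ * Real.log 14 * L := by
      calc (n : ℝ) * Real.log 14 ≤ C₁ * L * Real.log 14 := by gcongr
        _ = _ := by ring
    rw [hA]
    nlinarith
  have hHd : Differentiable ℂ H := by
    rw [hH]
    exact (hFd.comp ((differentiable_const s0).add differentiable_id)).div_const _
  obtain ⟨w, hw⟩ : ∃ w : ℂ, w = s - s0 := ⟨_, rfl⟩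
  have hwn : ‖w‖ ≤ 1.395 := by
    have h1 : w = ((s.re - 2 : ℝ) : ℂ) := by
      apply Complex.ext
      · rw [hw, Complex.sub_re, hs0re, Complex.ofReal_re]
      · rw [hw, Complex.sub_im, hs0im, Complex.ofReal_im, ht, sub_self]
    rw [h1, Complex.norm_real, Real.norm_eq_abs, abs_le]
    constructor <;> linarith
  have hsw : s0 + w = s := by rw [hw]; ring
  have hmain := logDeriv_bound (H := H) (R := 1.4) (r₂ := 1.3975) (r₁ := 1.395) (Mt := A * L)
    (by norm_num) (by norm_num) (by norm_num) (by positivity) hHd.differentiableOn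
    (fun z hz => by
      rw [hH]
      exact div_ne_zero (hne z (by rwa [mem_ball_zero_iff] at hz)) hF0)
    (by
      rw [hH]
      simp only [add_zero]
      exact div_self hF0) hHb hwn
  have hFs : F s ≠ 0 := by
    have := hne w (by linarith)
    rwa [hsw] at this
  have hder : deriv H w / H w = logDeriv F s := by
    have h1 : HasDerivAt H (deriv F s / F s0) w := by
      have h2 : HasDerivAt F (deriv F s) (s0 + w) := by
        rw [hsw]
        exact (hFd s).hasDerivAt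
      have h3 : HasDerivAt (fun w : ℂ => s0 + w) 1 w := (hasDerivAt_id w).const_add s0
      have h4 := (h2.comp w h3).div_const (F s0)
      rw [mul_one] at h4
      rw [hH]
      exact h4
    rw [h1.deriv, logDeriv_apply, hH]
    simp only
    rw [hsw]
    field_simp
  have hgoal1 : Qp (far M t) s * Z s ≠ 0 := by
    rw [hF] at hFs
    exact hFs
  refine ⟨hgoal1, ?_⟩
  have hgoal2 : ‖logDeriv F s‖ ≤
      2 * A * 1.3975 / (1.4 - 1.3975) / (1.3975 - 1.395) * L := by
    rw [← hder]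
    refine hmain.trans (le_of_eq ?_)
    ring
  rw [hF] at hgoal2
  exact hgoal2

end Pool.Agent.Helper55.KSZ
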